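import Pool.Agent.Helper18_X2.Stmts

/-!
Module SQF: simple quotients of subgroups of a product of commuting subgroups.
-/

set_option autoImplicit false

namespace Pool.Agent.PP.X2.H76

open Pool.Agent.PP Pool.Agent.PP.X2

section ext

variable {G : Type} [Group G]

/-- the elements of `C` in `L B` -/
def sb (L B C : Subgroup G) (hL : L ≤ Subgroup.normalizer (B : Set G)) : Subgroup G where
  carrier := {y | y ∈ C ∧ ∃ l : L, (l : G)⁻¹ * y ∈ B}
  one_mem' := ⟨C.one_mem, 1, by simp⟩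
  mul_mem' := by
    rintro y y' ⟨hy, l, hl⟩ ⟨hy', l', hl'⟩
    refine ⟨C.mul_mem hy hy', l * l', ?_⟩
    have h1 := Subgroup.le_normalizer_iff.1 hL _ (L.inv_mem l'.2) _ hl
    have h2 : ((l * l' : L) : G)⁻¹ * (y * y') =
        ((l' : G)⁻¹ * ((l : G)⁻¹ * y) * ((l' : G)⁻¹)⁻¹) * ((l' : G)⁻¹ * y') := by
      rw [Subgroup.coe_mul]
      group
    rw [h2]
    exact B.mul_mem h1 hl'
  inv_mem' := by
    rintro y ⟨hy, l, hl⟩
    refine ⟨C.inv_mem hy, l⁻¹, ?_⟩
    have h1 := Subgroup.le_normalizer_iff.1 hL _ l.2 _ (B.inv_mem hl)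
    have h2 : ((l⁻¹ : L) : G)⁻¹ * y⁻¹ = (l : G) * ((l : G)⁻¹ * y)⁻¹ * (l : G)⁻¹ := by
      rw [Subgroup.coe_inv]
      group
    rw [h2]
    exact h1

theorem ext {S : Type} [Group S] (L B C : Subgroup G) (f : L →* S)
    (hL : L ≤ Subgroup.normalizer (B : Set G)) (hC : C ≤ Subgroup.normalizer (B : Set G))
    (hLC : L ≤ C ⊔ B) (h1 : ∀ x : L, (x : G) ∈ B → f x = 1) (hf : Function.Surjective f) :
    ∃ (L₂ : Subgroup G) (f₂ : L₂ →* S), L₂ ≤ C ∧ Function.Surjective f₂ ∧
      ∀ x : L₂, (x : G) ∈ B → f₂ x = 1 := by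
  have huniq : ∀ (y : G) (l l' : L), (l : G)⁻¹ * y ∈ B → (l' : G)⁻¹ * y ∈ B → f l = f l' := by
    intro y l l' h h'
    have h2 : ((l⁻¹ * l' : L) : G) ∈ B := by
      have h3 : ((l⁻¹ * l' : L) : G) = ((l : G)⁻¹ * y) * ((l' : G)⁻¹ * y)⁻¹ := by
        rw [Subgroup.coe_mul, Subgroup.coe_inv]
        group
      rw [h3]
      exact B.mul_mem h (B.inv_mem h')
    have h4 := h1 _ h2
    rw [map_mul, map_inv, inv_mul_eq_one] at h4
    exact h4
  have hex : ∀ y : sb L B C hL, ∃ l : L, (l : G)⁻¹ * (y : G) ∈ B := fun y => y.2.2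
  choose g hg using hex
  have hval : ∀ (y : sb L B C hL) (l : L), (l : G)⁻¹ * (y : G) ∈ B → f (g y) = f l :=
    fun y l hl => huniq y _ _ (hg y) hl
  refine ⟨sb L B C hL, MonoidHom.mk' (fun y => f (g y)) (fun y y' => ?_), fun y hy => hy.1, ?_, ?_⟩
  · rw [← map_mul]
    refine hval _ _ ?_
    have h2 := Subgroup.le_normalizer_iff.1 hL _ (L.inv_mem (g y').2) _ (hg y)
    have h3 : ((g y * g y' : L) : G)⁻¹ * ((y * y' : sb L B C hL) : G) =
        ((g y' : G)⁻¹ * ((g y : G)⁻¹ * (y : G)) * ((g y' : G)⁻¹)⁻¹) *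
          ((g y' : G)⁻¹ * (y' : G)) := by
      rw [Subgroup.coe_mul, Subgroup.coe_mul]
      group
    rw [h3]
    exact B.mul_mem h2 (hg y')
  · intro s
    obtain ⟨l, rfl⟩ := hf s
    have h2 : (l : G) ∈ ((C ⊔ B : Subgroup G) : Set G) := hLC l.2
    rw [Subgroup.coe_mul_of_left_le_normalizer_right C B hC] at h2
    obtain ⟨y, hy, b, hb, hyb⟩ := h2
    have hyb' : y * b = (l : G) := hyb
    have hmem : (l : G)⁻¹ * y ∈ B := by
      have : (l : G)⁻¹ * y = b⁻¹ := by
        rw [← hyb']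
        group
      rw [this]
      exact B.inv_mem hb
    exact ⟨⟨y, hy, l, hmem⟩, hval _ _ hmem⟩
  · intro y hy
    have h2 := hval y 1 (by simpa using hy)
    rw [map_one] at h2
    exact h2

end ext

theorem sqf : SqfStmt := by
  classical
  intro G _ _ J _ C E' hcomm hnE hE S _ _ hS L f hL hf hker
  have : IsSimpleGroup S := hS.1
  have hCn : ∀ i, (⨆ j, C j) ≤ Subgroup.normalizer (C i : Set G) := by
    intro i
    refine iSup_le (fun j => ?_)
    by_cases hij : j = i
    · rw [hij]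
      exact Subgroup.le_normalizer
    · refine Subgroup.le_normalizer_iff.2 (fun x hx y hy => ?_)
      rw [hcomm j i hij x hx y hy, mul_inv_cancel_right]
      exact hy
  have hBn : ∀ t : Finset J, (⨆ j, C j) ≤
      Subgroup.normalizer ((E' ⊔ ⨆ i ∈ t, C i : Subgroup G) : Set G) := by
    intro t
    have h1 : (⨆ j, C j) ≤ Subgroup.normalizer ((⨆ i ∈ t, C i : Subgroup G) : Set G) := by
      refine le_trans (le_iInf fun i => ?_)
        (Subgroup.iInf_normalizer_le_normalizer_iSup (fun i => ⨆ _ : i ∈ t, C i))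
      exact le_trans (le_iInf fun _ => hCn i)
        (Subgroup.iInf_normalizer_le_normalizer_iSup (fun _ : i ∈ t => C i))
    exact (le_inf hnE h1).trans (Subgroup.normalizer_inf_normalizer_le_normalizer_sup _ _)
  have hBA : ∀ t : Finset J, (E' ⊔ ⨆ i ∈ t, C i) ≤ ⨆ j, C j := fun t =>
    sup_le hE (iSup_le fun i => iSup_le fun _ => le_iSup C i)
  have key : ∀ (t : Finset J) (L : Subgroup G) (f : L →* S), L ≤ (E' ⊔ ⨆ i ∈ t, C i) →
      Function.Surjective f → (∀ x : L, (x : G) ∈ E' → f x = 1) →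
      ∃ (j : J) (L₂ : Subgroup G) (f₂ : L₂ →* S), L₂ ≤ C j ∧ Function.Surjective f₂ ∧
        ∀ x : L₂, (x : G) ∈ E' → f₂ x = 1 := by
    intro t
    induction t using Finset.induction_on with
    | empty =>
      intro L f hL hf hker
      exfalso
      obtain ⟨a, b, hab⟩ := hS.2
      have hL' : L ≤ E' := by simpa using hL
      obtain ⟨x, rfl⟩ := hf a
      obtain ⟨y, rfl⟩ := hf b
      rw [hker x (hL' x.2), hker y (hL' y.2)] at hab
      exact hab rfl
    | insert j t _ ih =>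
      intro L f hL hf hker
      have hLA : L ≤ ⨆ j, C j := hL.trans (hBA _)
      have hLn := hLA.trans (hBn t)
      have hnorm : ((E' ⊔ ⨆ i ∈ t, C i).subgroupOf L).Normal :=
        Subgroup.normal_subgroupOf_of_le_normalizer hLn
      have hM := hnorm.map f hf
      rcases hM.eq_bot_or_eq_top with h | h
      · have h1 : ∀ x : L, (x : G) ∈ (E' ⊔ ⨆ i ∈ t, C i) → f x = 1 := by
          intro x hx
          have h2 : f x ∈ Subgroup.map f ((E' ⊔ ⨆ i ∈ t, C i).subgroupOf L) :=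
            Subgroup.mem_map_of_mem f (Subgroup.mem_subgroupOf.2 hx)
          rw [h] at h2
          exact Subgroup.mem_bot.1 h2
        obtain ⟨L₂, f₂, hL₂, hf₂, hk₂⟩ := ext L (E' ⊔ ⨆ i ∈ t, C i) (C j) f hLn
          ((le_iSup C j).trans (hBn t)) (by
            rw [Finset.iSup_insert] at hL
            refine hL.trans (sup_le (le_sup_left.trans le_sup_right)
              (sup_le le_sup_left (le_sup_right.trans le_sup_right)))) h1 hf
        exact ⟨j, L₂, f₂, hL₂, hf₂, fun x hx => hk₂ x ((le_sup_left : E' ≤ _) hx)⟩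
      · refine ih (L ⊓ (E' ⊔ ⨆ i ∈ t, C i)) (f.comp (Subgroup.inclusion inf_le_left)) inf_le_right
          ?_ ?_
        · intro s
          have hs : s ∈ Subgroup.map f ((E' ⊔ ⨆ i ∈ t, C i).subgroupOf L) := by
            rw [h]
            exact Subgroup.mem_top s
          obtain ⟨x, hx, hxs⟩ := Subgroup.mem_map.1 hs
          exact ⟨⟨x, x.2, Subgroup.mem_subgroupOf.1 hx⟩, hxs⟩
        · intro x hx
          exact hker _ hx
  have := Fintype.ofFinite J
  refine key Finset.univ L f ?_ hf hker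
  refine hL.trans (le_trans ?_ le_sup_right)
  exact iSup_le fun i => le_iSup₂_of_le i (Finset.mem_univ i) le_rfl

end Pool.Agent.PP.X2.H76
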